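import Pool.Agent.MP_1246c0_nt.H12.SpecN

/-! Lower bound for the sum over the good configurations. -/

namespace Pool.Agent.MP_1246c0_nt.H12

open Finset Filter Topology

namespace F3

theorem ind_nonneg (p : Prop) : 0 ≤ ind p := by unfold ind; split_ifs <;> norm_num

theorem ind_mono {p q : Prop} (h : p → q) : ind p ≤ ind q := by
  by_cases hp : p
  · simp [ind, hp, h hp]
  · simpa [ind, hp] using ind_nonneg q

theorem mem_OP {X p : ℕ} (h : p ∈ OP X) : p.Prime ∧ p ≠ 2 := (mem_filter.1 h).2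

theorem wr_nonneg {Sg : Finset ℕ} {w : ℕ → ℝ} (h : ∀ p, 0 ≤ w p) (p : ℕ) : 0 ≤ wr Sg w p := by
  unfold wr; split_ifs
  exacts [h p, le_rfl]

theorem wP_nonneg (X P : ℕ) : 0 ≤ wP X P := by unfold wP; split_ifs <;> norm_num

theorem ws_nonneg (X j0 p : ℕ) : 0 ≤ ws X j0 p := by unfold ws; split_ifs <;> positivity

theorem wb_nonneg {X : ℕ} (h : s1 X ≤ s2 X) (p : ℕ) : 0 ≤ wb X p := by
  unfold wb; split_ifs with hp
  · exact sub_nonneg.2 (Real.rpow_le_rpow_of_exponent_le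
      (by exact_mod_cast (Nat.zero_le _).trans_lt hp) (by linarith))
  · exact le_rfl

theorem big {X d P : ℕ} (hX : 64 ≤ X) (hd : d ^ 3 ≤ X) (h : X < 2 * P * d) : X < P ^ 2 := by
  by_contra hn
  have h1 : X ^ 6 < (2 * P * d) ^ 6 := Nat.pow_lt_pow_left h (by norm_num)
  have h2 : (P ^ 2) ^ 3 * (d ^ 3) ^ 2 ≤ X ^ 3 * X ^ 2 := by
    have := not_lt.1 hn
    gcongr
  have h3 : 64 * X ^ 5 ≤ X * X ^ 5 := by gcongr
  have h4 : (2 * P * d) ^ 6 = 64 * ((P ^ 2) ^ 3 * (d ^ 3) ^ 2) := by ring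
  have h5 : X ^ 3 * X ^ 2 = X ^ 5 := by ring
  have h6 : X * X ^ 5 = X ^ 6 := by ring
  omega

theorem large {X d y : ℕ} (hd0 : 0 < d) (hd : d ^ 3 ≤ X) (hy : (y + 1) ^ 3 ≤ X) : y ≤ X / d := by
  rw [Nat.le_div_iff_mul_le hd0]
  by_contra hn
  have h1 : X ^ 3 < (y * d) ^ 3 := Nat.pow_lt_pow_left (not_le.1 hn) (by norm_num)
  have h0 : y ^ 3 ≤ X := (Nat.pow_le_pow_left (Nat.le_succ y) 3).trans hy
  have h2 : y ^ 3 * d ^ 3 ≤ X * X := by gcongr
  have h3 : 1 ≤ X := (Nat.one_le_pow _ _ (Nat.succ_pos y)).trans hy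
  have h4 : X * X * 1 ≤ X * X * X := by gcongr
  have h5 : (y * d) ^ 3 = y ^ 3 * d ^ 3 := by ring
  have h6 : X * X * X = X ^ 3 := by ring
  omega

/-- the sum over the large prime -/
theorem inner {c : ℝ} (hc : 0 < c) {y0 X : ℕ} (hPC : ∀ y : ℕ, y0 ≤ y → c * y / Real.log y ≤
      ((range (y + 1)).filter fun P => P.Prime ∧ P % 8 = 5 ∧ y < 2 * P).card)
    (hX : 64 ≤ X) (hy : (max y0 2 + 1) ^ 3 ≤ X) {Sg B : Finset ℕ} (hS : ∀ p ∈ Sg, p.Prime)
    (hB : ∀ p ∈ B, p.Prime) (hd : ((∏ p ∈ Sg, p) * ∏ p ∈ B, p) ^ 3 ≤ X) {t : ℝ} (ht : 0 ≤ t) :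
    t * (c * X / (2 * Real.log X) / ((∏ p ∈ Sg, (p : ℝ)) * ∏ p ∈ B, (p : ℝ))) ≤
      ∑ P ∈ range (X / (∏ p ∈ Sg, p) + 1),
        if P ∉ B ∧ (∏ p ∈ B, p) * P ≤ X / ∏ p ∈ Sg, p then t * wr Sg (wP X) P * 1 else 0 := by
  set a := ∏ p ∈ Sg, p with ha
  set b := ∏ p ∈ B, p with hb
  have ha0 : 0 < a := prod_pos fun p hp => (hS p hp).pos
  have hb0 : 0 < b := prod_pos fun p hp => (hB p hp).pos
  have hd0 : 0 < a * b := mul_pos ha0 hb0
  set y := X / (a * b) with hyd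
  have hy1 : max y0 2 ≤ y := large hd0 hd hy
  have hy2 : 2 ≤ y := (le_max_right _ _).trans hy1
  have hlt : X < (y + 1) * (a * b) := by
    rw [mul_comm]; exact Nat.lt_mul_div_succ X hd0
  have hyT : y = X / a / b := by rw [hyd, Nat.div_div_eq_div_mul]
  have key : ∀ P ∈ (range (y + 1)).filter fun P => P.Prime ∧ P % 8 = 5 ∧ y < 2 * P,
      P ∈ range (X / a + 1) ∧ (P ∉ B ∧ b * P ≤ X / a) ∧ wr Sg (wP X) P = 1 := fun P hP => by
    obtain ⟨h1, h2, h3, h4⟩ := mem_filter.1 hP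
    have h5 : P ≤ X / a / b := hyT ▸ Nat.lt_succ_iff.1 (mem_range.1 h1)
    have h6 : X < 2 * P * (a * b) := hlt.trans_le (Nat.mul_le_mul_right _ h4)
    have h7 : ¬P ∣ a * b := fun hdv => by
      have h8 := Nat.le_of_dvd hd0 hdv
      have h9 := h2.two_le
      nlinarith [Nat.mul_le_mul h8 (le_refl (a * b)), Nat.mul_le_mul (h9.trans h8)
        (le_refl (a * b * (a * b)))]
    refine ⟨mem_range.2 (Nat.lt_succ_of_le (h5.trans (Nat.div_le_self _ _))),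
      ⟨fun h => h7 ((dvd_prod_of_mem _ h).mul_left a), ?_⟩, ?_⟩
    · rw [mul_comm]; exact (Nat.le_div_iff_mul_le hb0).1 h5
    · rw [wr, if_pos ⟨h2, by omega, fun h => h7 ((dvd_prod_of_mem _ h).mul_right b)⟩, wP,
        if_pos ⟨h3, big hX hd h6⟩]
  have hly : 0 < Real.log y := Real.log_pos (by exact_mod_cast hy2)
  have hlX : Real.log y ≤ Real.log X :=
    Real.log_le_log (by positivity) (by exact_mod_cast Nat.div_le_self _ _)
  have hD : (0 : ℝ) < (a : ℝ) * b := by exact_mod_cast hd0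
  have h1 : c * X / (2 * Real.log X) / ((a : ℝ) * b) ≤ c * y / Real.log y := by
    have h2 : (X : ℝ) ≤ 2 * y * (a * b) := by
      have : X ≤ 2 * y * (a * b) := hlt.le.trans (Nat.mul_le_mul_right _ (by omega))
      exact_mod_cast this
    rw [div_le_iff₀ hD, div_le_iff₀ (by linarith)]
    calc c * X ≤ c * (2 * y * (a * b)) := by gcongr
      _ = c * y / Real.log y * (a * b) * (2 * Real.log y) := by field_simp
      _ ≤ _ := by gcongr
  rw [← Nat.cast_prod, ← Nat.cast_prod]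
  refine (mul_le_mul_of_nonneg_left (h1.trans (hPC y ((le_max_left _ _).trans hy1))) ht).trans ?_
  rw [mul_comm, ← nsmul_eq_mul, ← sum_const]
  refine (sum_congr rfl fun P hP => ?_).le.trans (sum_le_sum_of_subset_of_nonneg
    (fun P hP => (key P hP).1) fun P _ _ => ?_)
  · rw [if_pos (key P hP).2.1, (key P hP).2.2, mul_one, mul_one]
  · split_ifs
    · exact mul_nonneg (mul_nonneg ht (wr_nonneg (wP_nonneg X) P)) zero_le_one
    · exact le_rfl

end F3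

open F3 in
theorem rowF3 : OfF3 := by
  intro hPRM ⟨c, hc, y0, hPC⟩ hMAIN hCFG j0 hj
  obtain ⟨c₁, hc₁, hM⟩ := hMAIN j0 hj
  refine ⟨c₁ * (c / 2), by positivity, ?_⟩
  filter_upwards [hM, hPRM j0 0, eventually_ge_atTop 64, eventually_ge_atTop ((max y0 2 + 1) ^ 3)]
    with X hM hP hX hy
  classical
  have hs : s1 X ≤ s2 X := hP.2.2.1
  have hlX : 0 < Real.log X := Real.log_pos (by exact_mod_cast (by omega : 1 < X))
  set tp := tpX X j0
  set κ := c * X / (2 * Real.log X) with hκ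
  have hκ0 : 0 ≤ κ := by positivity
  let G : Finset ℕ → Finset ℕ → Prop := fun Sg B =>
    NiceS Sg B tp j0 ∧ B.card ≤ mX X ∧ ((∏ p ∈ Sg, p) * ∏ p ∈ B, p) ^ 3 ≤ X
  calc c₁ * (c / 2) * X = c₁ * Real.log X * κ := by rw [hκ]; field_simp
    _ ≤ _ := mul_le_mul_of_nonneg_right hM hκ0
    _ ≤ _ := ?_
  rw [PS, CS, sum_mul, sum_filter]
  refine sum_le_sum fun Sg hSg => ?_
  have hS : ∀ p ∈ Sg, p.Prime ∧ p ≠ 2 := fun p hp => mem_OP (mem_powerset.1 hSg hp)
  split_ifs with hz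
  swap
  · rw [sum_eq_zero fun B _ => by rw [ind, if_neg fun h => hz h.1.sml, mul_zero], zero_mul]
  set T := X / ∏ p ∈ Sg, p with hT
  have hw := wr_nonneg (Sg := Sg) (wb_nonneg hs)
  have hw' := wr_nonneg (Sg := Sg) (wP_nonneg X)
  set S := (OP X \ Sg).powerset.filter (G Sg) with hSd
  have hmem : ∀ B ∈ S, (∀ p ∈ B, p.Prime ∧ p ≠ 2 ∧ p ∉ Sg) ∧ G Sg B := fun B hB => by
    refine ⟨fun p hp => ?_, (mem_filter.1 hB).2⟩
    obtain ⟨h1, h2⟩ := mem_sdiff.1 (mem_powerset.1 (mem_filter.1 hB).1 hp)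
    exact ⟨(mem_OP h1).1, (mem_OP h1).2, h2⟩
  have e1 : ∑ B ∈ (OP X \ Sg).powerset, (∏ p ∈ Sg, ws X j0 p / p) * (∏ p ∈ B, wb X p / p) *
      ind (G Sg B) = ∑ B ∈ S, (∏ p ∈ Sg, ws X j0 p / p) * ∏ p ∈ B, wb X p / p := by
    rw [hSd, sum_filter]
    refine sum_congr rfl fun B _ => ?_
    by_cases h : G Sg B
    · rw [ind, if_pos h, if_pos h, mul_one]
    · rw [ind, if_neg h, if_neg h, mul_zero]
  rw [e1, ← sum_fiberwise_of_maps_to (t := range (mX X + 1)) (g := card)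
    (fun B hB => mem_range.2 (Nat.lt_succ_of_le (hmem B hB).2.2.1)), sum_mul, mul_sum]
  refine sum_le_sum fun m _ => ?_
  have h1 := hCFG.mono m T _ _ (fun p _ => ind (G Sg (univ.image p))) (fun p P =>
    ind (Nice (fun i => lev (prs Sg p i)) (fun i => eps (prs Sg p i)) (BB Sg m)
      (Sm0 (prs Sg p) P) tp j0)) hw hw' fun p P hinj _ hp _ _ => ind_mono fun h =>
      hCFG.nice Sg m p P tp j0 hinj (fun l hl => ⟨(hS l hl).1, (hS l hl).2, Nat.zero_le _⟩)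
        (fun i => by
          have := hp i
          rw [wr] at this
          split_ifs at this with h'
          exacts [⟨⟨h'.1, h'.2.1, Nat.zero_le _⟩, h'.2.2⟩, absurd rfl this]) h.1
  rw [hCFG.tsb m T _ _ (fun B _ => ind (G Sg B)) (by simp [wr, Nat.not_prime_zero])
    (by simp [wr, Nat.not_prime_zero])] at h1
  have hf : (0 : ℝ) < m.factorial := by exact_mod_cast m.factorial_pos
  have hws : 0 ≤ ∏ p ∈ Sg, ws X j0 p := prod_nonneg fun p _ => ws_nonneg X j0 p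
  refine le_trans ?_ (mul_le_mul_of_nonneg_left (mul_le_mul_of_nonneg_left h1 (by positivity)) hws)
  rw [← mul_assoc (1 / _), one_div_mul_cancel hf.ne', one_mul, sum_mul, mul_sum]
  refine (sum_le_sum fun B hB => ?_).trans (sum_le_sum_of_subset_of_nonneg (fun B hB => ?_)
    fun B _ _ => mul_nonneg hws (sum_nonneg fun P _ => ?_))
  · obtain ⟨hb, hG⟩ := hmem B (mem_filter.1 hB).1
    have h2 := inner hc hPC hX hy (fun p hp => (hS p hp).1) (fun p hp => (hb p hp).1) hG.2.2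
      (t := ∏ p ∈ B, wr Sg (wb X) p) (prod_nonneg fun p _ => hw p)
    rw [ind, if_pos hG]
    refine le_trans (le_of_eq ?_) (mul_le_mul_of_nonneg_left h2 hws)
    rw [prod_div_distrib, prod_div_distrib,
      prod_congr rfl fun p hp => show wr Sg (wb X) p = wb X p from if_pos (hb p hp)]
    ring
  · obtain ⟨hB1, hB2⟩ := mem_filter.1 hB
    obtain ⟨hb, hG⟩ := hmem B hB1
    refine mem_powersetCard.2 ⟨fun p hp => mem_range.2 (Nat.lt_succ_of_le ?_), hB2⟩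
    have ha0 : 0 < ∏ p ∈ Sg, p := prod_pos fun p hp => (hS p hp).1.pos
    have hb0 : 0 < ∏ p ∈ B, p := prod_pos fun p hp => (hb p hp).1.pos
    refine (Nat.le_of_dvd hb0 (dvd_prod_of_mem _ hp)).trans ((Nat.le_div_iff_mul_le ha0).2 ?_)
    rw [mul_comm]
    exact (Nat.le_self_pow (by norm_num) _).trans hG.2.2
  · split_ifs
    · exact mul_nonneg (mul_nonneg (prod_nonneg fun p _ => hw p) (hw' P)) (ind_nonneg _)
    · exact le_rfl

end Pool.Agent.MP_1246c0_nt.H12
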