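import Pool.Agent.MP_1246c0_nt.H12.SpecA

/-! Eigenfunctionals modulo four. -/

namespace Pool.Agent.MP_1246c0_nt.H12

open NumberField Polynomial Finset

namespace EIG

/-- a discrete valuation ring above two that contains a root of a given monic polynomial -/
theorem ring (f : ℤ[X]) (hf : f.Monic) (hd : f.degree ≠ 0) :
    ∃ (O : Type) (_ : CommRing O) (_ : IsDomain O) (_ : IsDiscreteValuationRing O)
      (_ : CharZero O) (_ : Finite (IsLocalRing.ResidueField O)) (u : O),
      ¬IsUnit (2 : O) ∧ (f.map (Int.castRingHom O)).eval u = 0 := by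
  set g : ℚ[X] := f.map (Int.castRingHom ℚ) with hg
  let E := g.SplittingField
  have : NumberField E := {}
  obtain ⟨x, hx⟩ := Splits.exists_eval_eq_zero (SplittingField.splits g) (by
    rw [degree_map, hg, hf.degree_map]; exact hd)
  have hx' : aeval x f = 0 := by
    rw [eval_map_algebraMap] at hx
    exact (aeval_map_algebraMap ℚ x f).symm.trans hx
  let u₀ : 𝓞 E := ⟨x, f, hf, hx'⟩
  have hu₀ : aeval u₀ f = 0 := by
    apply RingOfIntegers.coe_injective
    rw [← aeval_algebraMap_apply, map_zero]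
    exact hx'
  have h2 : ¬IsUnit (2 : 𝓞 E) := fun h => by
    have := (isUnit_map_iff (algebraMap ℤ (𝓞 E)) 2).1 (by simpa using h)
    rw [Int.isUnit_iff] at this
    omega
  obtain ⟨P, hP, hle⟩ := Ideal.exists_le_maximal (Ideal.span {(2 : 𝓞 E)})
    (by rwa [Ne, Ideal.span_singleton_eq_top])
  have h2P : (2 : 𝓞 E) ∈ P := hle (Ideal.mem_span_singleton_self _)
  have hP0 : P ≠ ⊥ := fun h => by
    rw [h, Ideal.mem_bot] at h2P
    exact two_ne_zero h2P
  refine ⟨Localization.AtPrime P, inferInstance, inferInstance,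
    IsLocalization.AtPrime.isDiscreteValuationRing_of_dedekind_domain _ hP0 _,
    charZero_of_injective_algebraMap (IsLocalization.injective _ P.primeCompl_le_nonZeroDivisors),
    Finite.of_equiv _ (IsLocalization.AtPrime.equivQuotMaximalIdeal P _).toEquiv,
    algebraMap (𝓞 E) _ u₀, fun h => ?_, ?_⟩
  · exact (IsLocalization.AtPrime.isUnit_to_map_iff (Localization.AtPrime P) P 2).1
      (by rwa [map_ofNat]) h2P
  · have := congrArg (algebraMap (𝓞 E) (Localization.AtPrime P)) hu₀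
    rw [map_zero, aeval_def, hom_eval₂] at this
    rw [eval_map, ← this]
    congr 1
    exact RingHom.ext_int _ _

/-- a primitive eigenvector -/
theorem vec {O : Type} [CommRing O] [IsDomain O] [IsDiscreteValuationRing O] {n : ℕ}
    (B : Matrix (Fin n) (Fin n) O) (h : B.det = 0) :
    ∃ e : Fin n → O, Matrix.vecMul e B = 0 ∧ ∃ i, e i = 1 := by
  obtain ⟨v, hv, hB⟩ := Matrix.exists_vecMul_eq_zero_iff.2 h
  obtain ⟨j, hj⟩ := Function.ne_iff.1 hv
  obtain ⟨i, -, hi⟩ := Finset.exists_min_image univ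
    (fun i => IsDiscreteValuationRing.addVal O (v i)) ⟨j, mem_univ _⟩
  have hd : ∀ k, v i ∣ v k := fun k =>
    IsDiscreteValuationRing.addVal_le_iff_dvd.1 (hi k (mem_univ _))
  choose e he using hd
  have h0 : v i ≠ 0 := fun h0 => hj (by rw [he j, h0, zero_mul]; rfl)
  refine ⟨e, ?_, i, mul_left_cancel₀ h0 (by rw [← he i, mul_one])⟩
  have : v = v i • e := funext fun k => he k
  rw [this, Matrix.smul_vecMul] at hB
  exact (smul_eq_zero.1 hB).resolve_left h0

/-- the group is free over the integers modulo four -/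
theorem free (V : Type) [AddCommGroup V] [Finite V] (h4 : ∀ v : V, 4 • v = 0)
    (h2 : ∀ v : V, 2 • v = 0 → ∃ v', v = 2 • v') : ∃ (n : ℕ) (b : Fin n → V),
      (∀ v, ∃ a : Fin n → ℤ, v = ∑ i, a i • b i) ∧
      ∀ a : Fin n → ℤ, ∑ i, a i • b i = 0 → ∀ i, 4 ∣ a i := by
  let H : AddSubgroup V := (nsmulAddMonoidHom 2 : V →+ V).range
  have : Fact (Nat.Prime 2) := ⟨Nat.prime_two⟩
  let : Module (ZMod 2) (V ⧸ H) := QuotientAddGroup.zmodModule fun x => ⟨x, rfl⟩
  have : Module.Finite (ZMod 2) (V ⧸ H) := Module.Finite.of_finite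
  let c := Module.finBasis (ZMod 2) (V ⧸ H)
  choose b hb using fun i => QuotientAddGroup.mk'_surjective H (c i)
  have key : ∀ a : Fin _ → ℤ,
      QuotientAddGroup.mk' H (∑ i, a i • b i) = ∑ i, (a i : ZMod 2) • c i := fun a => by
    rw [map_sum]
    exact sum_congr rfl fun i _ => by rw [map_zsmul, hb, Int.cast_smul_eq_zsmul]
  have ev : ∀ a : Fin _ → ℤ, (∃ w : V, ∑ i, a i • b i = 2 • w) → ∀ i, 2 ∣ a i := by
    rintro a ⟨w, hw⟩ i
    have h0 : QuotientAddGroup.mk' H (∑ i, a i • b i) = 0 :=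
      (QuotientAddGroup.eq_zero_iff _).2 ⟨w, hw.symm⟩
    rw [key] at h0
    exact (ZMod.intCast_zmod_eq_zero_iff_dvd _ 2).1
      (Fintype.linearIndependent_iff.1 c.linearIndependent _ h0 i)
  have sp : ∀ v : V, ∃ (a : Fin _ → ℤ) (w : V), v = ∑ i, a i • b i + 2 • w := fun v => by
    choose a ha using fun i => ZMod.intCast_surjective (c.repr (QuotientAddGroup.mk' H v) i)
    have h0 : QuotientAddGroup.mk' H (v - ∑ i, a i • b i) = 0 := by
      rw [map_sub, key]
      simp only [ha]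
      rw [c.sum_repr, sub_self]
    obtain ⟨w, hw⟩ := (QuotientAddGroup.eq_zero_iff _).1 h0
    exact ⟨a, w, by rw [show 2 • w = v - ∑ i, a i • b i from hw, add_sub_cancel]⟩
  refine ⟨_, b, fun v => ?_, fun a ha i => ?_⟩
  · obtain ⟨a, w, e⟩ := sp v
    obtain ⟨a', w', e'⟩ := sp w
    refine ⟨a + 2 • a', ?_⟩
    rw [e, e', smul_add, smul_smul, show 2 * 2 = 4 from rfl, h4, add_zero, smul_sum,
      ← sum_add_distrib]
    exact sum_congr rfl fun i _ => by rw [Pi.add_apply, Pi.smul_apply, add_smul, smul_assoc]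
  · choose a' ha' using ev a ⟨0, by rw [ha, smul_zero]⟩
    have := ev a' (h2 _ (by
      rw [← ha, smul_sum]
      exact sum_congr rfl fun i _ => by rw [ha' i, mul_smul, two_smul, two_smul])) i
    rw [ha' i]
    exact mul_dvd_mul_left 2 this

end EIG

theorem rowEIG : SEIG := by
  intro V _ _ γ K hK h4 h2 ⟨v₀, hv₀⟩
  obtain ⟨n, b, hsp, hli⟩ := EIG.free V h4 h2
  have hn : n ≠ 0 := by
    rintro rfl
    obtain ⟨a, e⟩ := hsp v₀
    exact hv₀ (by rw [e]; rfl)
  choose A hA using fun j => hsp (γ (b j))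
  let M : Matrix (Fin n) (Fin n) ℤ := Matrix.of fun i j => A j i
  obtain ⟨O, _, _, _, _, _, u, hO, hu⟩ := EIG.ring M.charpoly M.charpoly_monic (by
    rw [Matrix.charpoly_degree_eq_dim, Fintype.card_fin]; exact_mod_cast hn)
  rw [← Matrix.charpoly_map, Matrix.eval_charpoly] at hu
  obtain ⟨e, he, i₀, hi₀⟩ := EIG.vec _ hu
  have hev : ∀ j, ∑ i, (A j i : O) * e i = u * e j := fun j => by
    have := congrFun he j
    rw [Matrix.vecMul_sub, Matrix.scalar_apply, Pi.sub_apply, Matrix.vecMul_diagonal,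
      Pi.zero_apply, sub_eq_zero] at this
    rw [mul_comm u, this]
    exact sum_congr rfl fun i _ => mul_comm _ _
  let π : (Fin n → ℤ) →+ V := (Fintype.linearCombination ℤ b).toAddMonoidHom
  have hπ : ∀ a, π a = ∑ i, a i • b i := fun a => rfl
  have hs : Function.Surjective π := fun v => (hsp v).imp fun a h => h.symm
  let φ : (Fin n → ℤ) →+ O ⧸ Ideal.span {(4 : O)} :=
    (Ideal.Quotient.mk _).toAddMonoidHom.comp (Fintype.linearCombination ℤ e).toAddMonoidHom
  have hφ : ∀ a, φ a = Ideal.Quotient.mk _ (∑ i, a i • e i) := fun a => rfl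
  have hker : π.ker ≤ φ.ker := fun a ha => by
    rw [AddMonoidHom.mem_ker, hφ, Ideal.Quotient.eq_zero_iff_mem, Ideal.mem_span_singleton]
    refine dvd_sum fun i _ => ?_
    obtain ⟨c, hc⟩ := hli a ha i
    exact ⟨c • e i, by rw [hc, zsmul_eq_mul, zsmul_eq_mul]; push_cast; ring⟩
  let χ := π.liftOfSurjective hs ⟨φ, hker⟩
  have hχ : ∀ a : Fin n → ℤ,
      χ (∑ i, a i • b i) = Ideal.Quotient.mk _ (∑ i, a i • e i) := fun a =>
    AddMonoidHom.liftOfRightInverse_comp_apply π _ _ _ a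
  have hb : ∀ j, χ (b j) = Ideal.Quotient.mk _ (e j) := fun j => by
    simpa [Pi.single_apply] using hχ (Pi.single j 1)
  have heig : ∀ v, χ (γ v) = Ideal.Quotient.mk _ u * χ v := fun v => by
    obtain ⟨a, rfl⟩ := hsp v
    rw [map_sum, map_sum, map_sum, mul_sum]
    refine sum_congr rfl fun j _ => ?_
    rw [map_zsmul, map_zsmul, map_zsmul, hA j, hχ, hb, mul_smul_comm, ← map_mul, ← hev]
    simp only [zsmul_eq_mul]
  have hit : ∀ (k : ℕ) v, χ (γ^[k] v) = Ideal.Quotient.mk _ (u ^ k) * χ v := fun k v => by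
    induction k with
    | zero => simp
    | succ k ih => rw [Function.iterate_succ_apply', heig, ih, ← mul_assoc, ← map_mul, pow_succ']
  have hd : (2 : O) ∣ (1 + (u - 1)) ^ 2 ^ K - 1 := by
    have := hit (2 ^ K) (b i₀)
    rw [hK, hb, hi₀, map_one, mul_one, eq_comm, ← map_one (Ideal.Quotient.mk _),
      Ideal.Quotient.eq, Ideal.mem_span_singleton] at this
    rw [add_sub_cancel]
    exact Dvd.dvd.trans ⟨2, by norm_num⟩ this
  refine ⟨O, inferInstance, inferInstance, inferInstance, inferInstance, inferInstance, u - 1, χ,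
    ⟨hO, fun ht => hO ?_, K, hd⟩, by rwa [add_sub_cancel], b i₀, 1, isUnit_one, by rw [hb, hi₀]⟩
  obtain ⟨r, hr⟩ := exists_add_pow_prime_pow_eq Nat.prime_two (1 : O) (u - 1) K
  obtain ⟨s, hs⟩ := hd
  refine isUnit_of_dvd_unit ⟨s - (u - 1) * r, ?_⟩ (ht.pow (2 ^ K))
  rw [hr, one_pow] at hs
  push_cast at hs
  linear_combination hs

end Pool.Agent.MP_1246c0_nt.H12
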